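import Pool.Agent.Z700.Defs

/-! Z700-SOL-A: existence of representations of `9 m` by `b² + 14 y²`, and the dichotomy
`p = x² + 14 y²` or `p = 2 x² + 7 y²` for the primes of the family. -/

set_option autoImplicit false

namespace Pool.Agent.Y563.Z

open Finset
open Pool.Agent.Z700 (Fam X2 pr Sol3 S_SOLA)

/-- Thue's lemma -/
theorem thue {p : ℕ} (hp : p.Prime) (r : ℤ) : ∃ x y : ℤ, (x ≠ 0 ∨ y ≠ 0) ∧ x ^ 2 < p ∧ y ^ 2 < p ∧
    (p : ℤ) ∣ x - r * y := by
  classical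
  have : Fact p.Prime := ⟨hp⟩
  obtain ⟨s, hs⟩ : ∃ s, s = Nat.sqrt p := ⟨_, rfl⟩
  have h1 : s ^ 2 ≤ p := by rw [hs]; exact Nat.sqrt_le' p
  have h2 : p < (s + 1) ^ 2 := by rw [hs]; exact Nat.lt_succ_sqrt' p
  have h3 : s ^ 2 ≠ p := by
    intro h
    rw [← h] at hp
    exact Nat.Prime.not_prime_pow (le_refl 2) hp
  have h4 : s ^ 2 < p := lt_of_le_of_ne h1 h3
  obtain ⟨a, ha, b, hb, hab, hf⟩ := Finset.exists_ne_map_eq_of_card_lt_of_maps_to
    (s := range (s + 1) ×ˢ range (s + 1)) (t := (Finset.univ : Finset (ZMod p)))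
    (f := fun q => ((q.1 : ZMod p) - (r : ZMod p) * (q.2 : ZMod p)))
    (by rw [Finset.card_univ, ZMod.card, Finset.card_product, Finset.card_range]; nlinarith)
    (fun _ _ => Finset.mem_univ _)
  rw [Finset.mem_product, Finset.mem_range, Finset.mem_range] at ha hb
  have bd : ∀ u v : ℕ, u < s + 1 → v < s + 1 → ((u : ℤ) - v) ^ 2 < p := by
    intro u v hu hv
    have h5 : (s : ℤ) ^ 2 < p := by exact_mod_cast h4
    have h6 : (u : ℤ) ≤ s := by exact_mod_cast Nat.lt_succ_iff.1 hu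
    have h7 : (v : ℤ) ≤ s := by exact_mod_cast Nat.lt_succ_iff.1 hv
    have h8 : (0 : ℤ) ≤ u := Int.natCast_nonneg _
    have h9 : (0 : ℤ) ≤ v := Int.natCast_nonneg _
    nlinarith
  refine ⟨(a.1 : ℤ) - b.1, (a.2 : ℤ) - b.2, ?_, bd _ _ ha.1 hb.1, bd _ _ ha.2 hb.2, ?_⟩
  · by_contra hcon
    push Not at hcon
    apply hab
    ext
    · have := hcon.1
      omega
    · have := hcon.2
      omega
  · rw [← ZMod.intCast_zmod_eq_zero_iff_dvd]
    push_cast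
    linear_combination hf

theorem s1 : IsSquare ((1 : ℕ) : ZMod 7) := ⟨1, by decide⟩
theorem s2 : IsSquare ((2 : ℕ) : ZMod 7) := ⟨3, by decide⟩
theorem s4 : IsSquare ((4 : ℕ) : ZMod 7) := ⟨2, by decide⟩

theorem sq_neg14 {p : ℕ} (hp : Fam p) : ∃ r : ℤ, (p : ℤ) ∣ r ^ 2 + 14 := by
  obtain ⟨hp1, h24, h7⟩ := hp
  have : Fact p.Prime := ⟨hp1⟩
  have : Fact (Nat.Prime 7) := ⟨by norm_num⟩
  have e1 : IsSquare (-1 : ZMod p) := ZMod.exists_sq_eq_neg_one_iff.2 (by omega)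
  have e2 : IsSquare (2 : ZMod p) := (ZMod.exists_sq_eq_two_iff (by rintro rfl; omega)).2
    (Or.inl (by omega))
  have e3 : IsSquare ((7 : ℕ) : ZMod p) := by
    rw [ZMod.exists_sq_eq_prime_iff_of_mod_four_eq_one (by omega) (by norm_num)]
    have h8 : ((p : ℕ) : ZMod 7) = ((p % 7 : ℕ) : ZMod 7) := by
      rw [ZMod.natCast_mod]
    rw [h8]
    rcases h7 with h | h | h <;> rw [h]
    · exact s1
    · exact s2
    · exact s4
  have e4 : IsSquare (-14 : ZMod p) := by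
    have := (e1.mul e2).mul e3
    have h : (-1 : ZMod p) * 2 * ((7 : ℕ) : ZMod p) = -14 := by push_cast; norm_num
    rwa [h] at this
  obtain ⟨r, hr⟩ := e4
  refine ⟨(r.val : ℤ), ?_⟩
  rw [← ZMod.intCast_zmod_eq_zero_iff_dvd]
  push_cast
  rw [ZMod.natCast_zmod_val]
  linear_combination -hr

theorem to_X2 {p : ℕ} {f g : ℤ} (h : (p : ℤ) = 2 * f ^ 2 + 7 * g ^ 2) : X2 p := by
  refine ⟨f.natAbs, g.natAbs, ?_⟩
  have : (p : ℤ) = ((2 * f.natAbs ^ 2 + 7 * g.natAbs ^ 2 : ℕ) : ℤ) := by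
    push_cast
    rw [sq_abs, sq_abs]
    exact h
  exact_mod_cast this

/-- the dichotomy, existence -/
theorem dich {p : ℕ} (hp : Fam p) : (∃ x y : ℤ, (p : ℤ) = x ^ 2 + 14 * y ^ 2) ∨ X2 p := by
  obtain ⟨r, hr⟩ := sq_neg14 hp
  obtain ⟨hp1, h24, h7⟩ := hp
  obtain ⟨x, y, h0, hx, hy, hd⟩ := thue hp1 r
  have h1 : (p : ℤ) ∣ x ^ 2 + 14 * y ^ 2 := by
    have : x ^ 2 + 14 * y ^ 2 = (x - r * y) * (x + r * y) + (r ^ 2 + 14) * y ^ 2 := by ring
    rw [this]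
    exact dvd_add (Dvd.dvd.mul_right hd _) (Dvd.dvd.mul_right hr _)
  obtain ⟨k, hk⟩ := h1
  have hp0 : (0 : ℤ) < p := by exact_mod_cast hp1.pos
  have hk15 : k < 15 := by
    by_contra h
    push Not at h
    nlinarith
  have hk0 : 0 < k := by
    by_contra h
    push Not at h
    have : x ^ 2 + 14 * y ^ 2 ≤ 0 := by rw [hk]; nlinarith
    have hx0 : x = 0 := by nlinarith [sq_nonneg x, sq_nonneg y]
    have hy0 : y = 0 := by nlinarith [sq_nonneg x, sq_nonneg y]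
    rcases h0 with h | h
    · exact h hx0
    · exact h hy0
  -- congruences
  have hP24 : (p : ℤ) % 8 = 1 := by omega
  have hP7 : (p : ℤ) % 7 = 1 ∨ (p : ℤ) % 7 = 2 ∨ (p : ℤ) % 7 = 4 := by omega
  have hm8 : (x ^ 2 + 14 * y ^ 2) % 8 = k % 8 := by
    rw [hk, Int.mul_emod, hP24]
    omega
  have hm7 : (x ^ 2 + 14 * y ^ 2) % 7 = (p : ℤ) % 7 * (k % 7) % 7 := by
    rw [hk, Int.mul_emod]
  have c8 : k % 8 = 0 ∨ k % 8 = 1 ∨ k % 8 = 2 ∨ k % 8 = 4 ∨ k % 8 = 6 ∨ k % 8 = 7 := by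
    have hx8 : x % 8 = 0 ∨ x % 8 = 1 ∨ x % 8 = 2 ∨ x % 8 = 3 ∨ x % 8 = 4 ∨ x % 8 = 5 ∨ x % 8 = 6 ∨
        x % 8 = 7 := by omega
    have hy8 : y % 8 = 0 ∨ y % 8 = 1 ∨ y % 8 = 2 ∨ y % 8 = 3 ∨ y % 8 = 4 ∨ y % 8 = 5 ∨ y % 8 = 6 ∨
        y % 8 = 7 := by omega
    rw [← hm8]
    rcases hx8 with h | h | h | h | h | h | h | h <;>
      rcases hy8 with h' | h' | h' | h' | h' | h' | h' | h' <;>
      simp [Int.add_emod, Int.mul_emod, pow_succ, h, h']
  have c7 : k % 7 = 0 ∨ k % 7 = 1 ∨ k % 7 = 2 ∨ k % 7 = 4 := by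
    have hx7 : x % 7 = 0 ∨ x % 7 = 1 ∨ x % 7 = 2 ∨ x % 7 = 3 ∨ x % 7 = 4 ∨ x % 7 = 5 ∨ x % 7 = 6 := by
      omega
    have hs : (x ^ 2 + 14 * y ^ 2) % 7 = 0 ∨ (x ^ 2 + 14 * y ^ 2) % 7 = 1 ∨
        (x ^ 2 + 14 * y ^ 2) % 7 = 2 ∨ (x ^ 2 + 14 * y ^ 2) % 7 = 4 := by
      rcases hx7 with h | h | h | h | h | h | h <;>
      simp [Int.add_emod, Int.mul_emod, pow_succ, h]
    rw [hm7] at hs
    rcases hP7 with h | h | h <;> rw [h] at hs <;> omega
  have hcases : k = 1 ∨ k = 2 ∨ k = 4 ∨ k = 7 ∨ k = 8 ∨ k = 9 ∨ k = 14 := by omega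
  rcases hcases with rfl | rfl | rfl | rfl | rfl | rfl | rfl
  · exact Or.inl ⟨x, y, by linarith⟩
  · right
    have : (2 : ℤ) ∣ x := by
      have h2 : (2 : ℤ) ∣ x ^ 2 := ⟨p - 7 * y ^ 2, by linarith⟩
      exact Int.prime_two.dvd_of_dvd_pow h2
    obtain ⟨u, rfl⟩ := this
    exact to_X2 (f := u) (g := y) (by linarith)
  · left
    have h2 : (2 : ℤ) ∣ x := by
      have h2 : (2 : ℤ) ∣ x ^ 2 := ⟨2 * p - 7 * y ^ 2, by linarith⟩
      exact Int.prime_two.dvd_of_dvd_pow h2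
    obtain ⟨u, rfl⟩ := h2
    have h3 : (2 : ℤ) ∣ y := by
      have h4 : (2 : ℤ) ∣ 7 * y ^ 2 := ⟨p - u ^ 2, by linarith⟩
      have h5 : (2 : ℤ) ∣ y ^ 2 := by omega
      exact Int.prime_two.dvd_of_dvd_pow h5
    obtain ⟨v, rfl⟩ := h3
    exact ⟨u, v, by linarith⟩
  · right
    have h7' : Prime (7 : ℤ) := by norm_num
    have : (7 : ℤ) ∣ x := by
      have h2 : (7 : ℤ) ∣ x ^ 2 := ⟨p - 2 * y ^ 2, by linarith⟩
      exact h7'.dvd_of_dvd_pow h2
    obtain ⟨u, rfl⟩ := this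
    exact to_X2 (f := y) (g := u) (by linarith)
  · right
    have h2 : (2 : ℤ) ∣ x := by
      have h2 : (2 : ℤ) ∣ x ^ 2 := ⟨4 * p - 7 * y ^ 2, by linarith⟩
      exact Int.prime_two.dvd_of_dvd_pow h2
    obtain ⟨u, rfl⟩ := h2
    have h3 : (2 : ℤ) ∣ y := by
      have h4 : (2 : ℤ) ∣ 7 * y ^ 2 := ⟨2 * p - u ^ 2, by linarith⟩
      have h5 : (2 : ℤ) ∣ y ^ 2 := by omega
      exact Int.prime_two.dvd_of_dvd_pow h5
    obtain ⟨v, rfl⟩ := h3
    have h6 : (2 : ℤ) ∣ u := by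
      have h2 : (2 : ℤ) ∣ u ^ 2 := ⟨p - 7 * v ^ 2, by linarith⟩
      exact Int.prime_two.dvd_of_dvd_pow h2
    obtain ⟨w, rfl⟩ := h6
    exact to_X2 (f := w) (g := v) (by linarith)
  · -- k = 9
    have h3p : Prime (3 : ℤ) := by norm_num
    by_cases h3 : (3 : ℤ) ∣ y
    · left
      obtain ⟨v, rfl⟩ := h3
      have : (3 : ℤ) ∣ x := by
        have h2 : (3 : ℤ) ∣ x ^ 2 := ⟨3 * p - 42 * v ^ 2, by linarith⟩
        exact h3p.dvd_of_dvd_pow h2
      obtain ⟨u, rfl⟩ := this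
      exact ⟨u, v, by linarith⟩
    · right
      -- `x ≡ ± 2 y mod 9`
      have h9 : (9 : ℤ) ∣ (x - 2 * y) * (x + 2 * y) := ⟨p - 2 * y ^ 2, by linarith⟩
      have hor : (9 : ℤ) ∣ x - 2 * y ∨ (9 : ℤ) ∣ x + 2 * y := by
        by_cases h31 : (3 : ℤ) ∣ x - 2 * y
        · have h32 : ¬ (3 : ℤ) ∣ x + 2 * y := by
            intro h
            omega
          left
          have hc : IsCoprime (9 : ℤ) (x + 2 * y) := by
            have : IsCoprime (3 : ℤ) (x + 2 * y) := (Prime.coprime_iff_not_dvd h3p).2 h32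
            have h2 := this.pow_left (m := 2)
            norm_num at h2
            exact h2
          exact hc.dvd_of_dvd_mul_right h9
        · right
          have hc : IsCoprime (9 : ℤ) (x - 2 * y) := by
            have : IsCoprime (3 : ℤ) (x - 2 * y) := (Prime.coprime_iff_not_dvd h3p).2 h31
            have h2 := this.pow_left (m := 2)
            norm_num at h2
            exact h2
          exact hc.dvd_of_dvd_mul_left h9
      have key : ∀ z : ℤ, z ^ 2 = y ^ 2 → (9 : ℤ) ∣ x - 2 * z → X2 p := by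
        intro z hz hd
        obtain ⟨c, hc⟩ := hd
        have hx : x = 2 * z + 9 * c := by linarith
        refine to_X2 (f := z + c) (g := c) ?_
        have h10 : (9 : ℤ) * p = 9 * (2 * (z + c) ^ 2 + 7 * c ^ 2) := by
          rw [hx, ← hz] at hk
          linarith
        linarith
      rcases hor with h | h
      · exact key y rfl h
      · exact key (-y) (by ring) (by rwa [mul_neg, sub_neg_eq_add])
  · left
    have h7' : Prime (7 : ℤ) := by norm_num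
    have h2 : (2 : ℤ) ∣ x := by
      have h2 : (2 : ℤ) ∣ x ^ 2 := ⟨7 * p - 7 * y ^ 2, by linarith⟩
      exact Int.prime_two.dvd_of_dvd_pow h2
    have h3 : (7 : ℤ) ∣ x := by
      have h2 : (7 : ℤ) ∣ x ^ 2 := ⟨2 * p - 2 * y ^ 2, by linarith⟩
      exact h7'.dvd_of_dvd_pow h2
    obtain ⟨u, hu⟩ : (14 : ℤ) ∣ x := by omega
    exact ⟨y, u, by rw [hu] at hk; linarith⟩

/-- the dichotomy, exclusion -/
theorem not_both {p : ℕ} (hp : p.Prime) (h2 : p ≠ 2) {x y : ℤ} (h : (p : ℤ) = x ^ 2 + 14 * y ^ 2) :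
    ¬ X2 p := by
  rintro ⟨f, g, hfg⟩
  have hpp : Prime (p : ℤ) := Nat.prime_iff_prime_int.1 hp
  have hfg' : (p : ℤ) = 2 * (f : ℤ) ^ 2 + 7 * (g : ℤ) ^ 2 := by exact_mod_cast hfg
  have hp0 : (p : ℤ) ≠ 0 := hpp.ne_zero
  have h1 : (p : ℤ) ∣ (2 * (f : ℤ) * y - g * x) * (2 * (f : ℤ) * y + g * x) := by
    refine ⟨2 * y ^ 2 - (g : ℤ) ^ 2, ?_⟩
    have e1 : x ^ 2 = p - 14 * y ^ 2 := by linarith
    have e2 : 2 * (f : ℤ) ^ 2 = p - 7 * (g : ℤ) ^ 2 := by linarith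
    calc (2 * (f : ℤ) * y - g * x) * (2 * (f : ℤ) * y + g * x)
        = 2 * (2 * (f : ℤ) ^ 2) * y ^ 2 - (g : ℤ) ^ 2 * x ^ 2 := by ring
      _ = p * (2 * y ^ 2 - (g : ℤ) ^ 2) := by rw [e1, e2]; ring
  have key : ∀ z : ℤ, z ^ 2 = y ^ 2 → (p : ℤ) ∣ 2 * (f : ℤ) * z - g * x → False := by
    intro z hz hd
    obtain ⟨v, hv⟩ := hd
    have h3 : 2 * ((f : ℤ) * x + 7 * g * z) ^ 2 + 7 * (2 * (f : ℤ) * z - g * x) ^ 2 = p * p := by
      have : 2 * ((f : ℤ) * x + 7 * g * z) ^ 2 + 7 * (2 * (f : ℤ) * z - g * x) ^ 2 =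
        (x ^ 2 + 14 * z ^ 2) * (2 * (f : ℤ) ^ 2 + 7 * (g : ℤ) ^ 2) := by ring
      rw [this, hz, ← h, ← hfg']
    have h4 : (p : ℤ) ∣ (f : ℤ) * x + 7 * g * z := by
      have h5 : (p : ℤ) ∣ 2 * ((f : ℤ) * x + 7 * g * z) ^ 2 := by
        refine ⟨p - 7 * p * v ^ 2, ?_⟩
        rw [hv] at h3
        linarith
      rcases hpp.dvd_or_dvd h5 with h6 | h6
      · exfalso
        have h7 : p ∣ 2 := by exact_mod_cast h6
        exact h2 ((Nat.prime_dvd_prime_iff_eq hp Nat.prime_two).1 h7)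
      · exact hpp.dvd_of_dvd_pow h6
    obtain ⟨u, hu⟩ := h4
    rw [hu, hv] at h3
    have h5 : (p : ℤ) * p * (2 * u ^ 2 + 7 * v ^ 2 - 1) = 0 := by linarith
    have h6 : 2 * u ^ 2 + 7 * v ^ 2 - 1 = 0 := by
      rcases mul_eq_zero.1 h5 with h | h
      · exact absurd h (mul_ne_zero hp0 hp0)
      · exact h
    have h7 : v = 0 := by nlinarith [sq_nonneg u, sq_nonneg v]
    rw [h7] at h6
    omega
  rcases hpp.dvd_or_dvd h1 with h3 | h3
  · exact key y rfl h3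
  · refine key (-y) (by ring) ?_
    have : 2 * (f : ℤ) * -y - g * x = -(2 * (f : ℤ) * y + g * x) := by ring
    rw [this]
    exact (dvd_neg).2 h3

/-- representation of `9 n` by `a x² + b y²` with coordinates prime to `3` -/
def Rp (a b n : ℤ) : Prop := ∃ x y : ℤ, 9 * n = a * x ^ 2 + b * y ^ 2 ∧ ¬ (3 : ℤ) ∣ x ∧ ¬ (3 : ℤ) ∣ y

theorem three_dvd_mul {a b : ℤ} (h : (3 : ℤ) ∣ a * b) : (3 : ℤ) ∣ a ∨ (3 : ℤ) ∣ b :=
  (show Prime (3 : ℤ) by norm_num).dvd_or_dvd h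

/-- multiplication by `p = g² + 14 f²` -/
theorem mul_A {n p f g : ℤ} {a b : ℤ} (hab : a * b = 14) (hp : p = g ^ 2 + 14 * f ^ 2)
    (hf : (3 : ℤ) ∣ f) (hg : ¬ (3 : ℤ) ∣ g) (h : Rp a b n) : Rp a b (n * p) := by
  obtain ⟨x, y, h1, h2, h3⟩ := h
  refine ⟨x * g - b * y * f, a * x * f + y * g, ?_, ?_, ?_⟩
  · have : 9 * (n * p) = (a * x ^ 2 + b * y ^ 2) * (g ^ 2 + (a * b) * f ^ 2) := by
      rw [← h1, hp, hab]; ring
    rw [this]
    ring
  · intro h4
    have h5 : (3 : ℤ) ∣ x * g := by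
      have : x * g = (x * g - b * y * f) + b * y * f := by ring
      rw [this]
      exact dvd_add h4 (Dvd.dvd.mul_left hf _)
    rcases three_dvd_mul h5 with h | h
    · exact h2 h
    · exact hg h
  · intro h4
    have h5 : (3 : ℤ) ∣ y * g := by
      have : y * g = (a * x * f + y * g) - a * x * f := by ring
      rw [this]
      exact dvd_sub h4 (Dvd.dvd.mul_left hf _)
    rcases three_dvd_mul h5 with h | h
    · exact h3 h
    · exact hg h

/-- division by `p = g² + 14 f²` -/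
theorem div_A {n p f g : ℤ} {a b : ℤ} (hab : a * b = 14) (ha : ¬ p ∣ a) (hpp : Prime p)
    (hp : p = g ^ 2 + 14 * f ^ 2)
    (hf : (3 : ℤ) ∣ f) (hg : ¬ (3 : ℤ) ∣ g) (h : Rp a b (n * p)) : Rp a b n := by
  obtain ⟨x, y, h1, h2, h3⟩ := h
  have h4 : p ∣ (a * x * f - y * g) * (a * x * f + y * g) := by
    refine ⟨9 * a * n * f ^ 2 - y ^ 2, ?_⟩
    have e1 : a * x ^ 2 = 9 * (n * p) - b * y ^ 2 := by linarith
    have e2 : g ^ 2 = p - 14 * f ^ 2 := by linarith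
    calc (a * x * f - y * g) * (a * x * f + y * g) = a * (a * x ^ 2) * f ^ 2 - y ^ 2 * g ^ 2 := by ring
      _ = 9 * a * n * f ^ 2 * p - (a * b) * y ^ 2 * f ^ 2 - y ^ 2 * (p - 14 * f ^ 2) := by
          rw [e1, e2]; ring
      _ = p * (9 * a * n * f ^ 2 - y ^ 2) := by rw [hab]; ring
  have key : ∀ w : ℤ, w ^ 2 = y ^ 2 → ¬ (3 : ℤ) ∣ w → p ∣ a * x * f - w * g → Rp a b n := by
    intro w hw hw3 hd
    obtain ⟨v, hv⟩ := hd
    have h5 : a * (x * g + b * w * f) ^ 2 + b * (a * x * f - w * g) ^ 2 = 9 * n * p * p := by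
      have : a * (x * g + b * w * f) ^ 2 + b * (a * x * f - w * g) ^ 2 =
        (a * x ^ 2 + b * w ^ 2) * (g ^ 2 + (a * b) * f ^ 2) := by ring
      rw [this, hw, ← h1, hab, ← hp]
      ring
    have h6 : p ∣ x * g + b * w * f := by
      have h7 : p ∣ a * (x * g + b * w * f) ^ 2 := by
        refine ⟨9 * n * p - b * p * v ^ 2, ?_⟩
        rw [hv] at h5
        linarith
      rcases hpp.dvd_or_dvd h7 with h8 | h8
      · exact absurd h8 ha
      · exact hpp.dvd_of_dvd_pow h8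
    obtain ⟨u, hu⟩ := h6
    refine ⟨u, v, ?_, ?_, ?_⟩
    · rw [hu, hv] at h5
      have h8 : (p * p) * (9 * n - (a * u ^ 2 + b * v ^ 2)) = 0 := by linarith
      rcases mul_eq_zero.1 h8 with h | h
      · exact absurd h (mul_ne_zero hpp.ne_zero hpp.ne_zero)
      · linarith
    · intro h8
      have h9 : (3 : ℤ) ∣ x * g := by
        have : x * g = p * u - b * w * f := by linarith
        rw [this]
        exact dvd_sub (Dvd.dvd.mul_left h8 _) (Dvd.dvd.mul_left hf _)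
      rcases three_dvd_mul h9 with h | h
      · exact h2 h
      · exact hg h
    · intro h8
      have h9 : (3 : ℤ) ∣ w * g := by
        have : w * g = a * x * f - p * v := by linarith
        rw [this]
        exact dvd_sub (Dvd.dvd.mul_left hf _) (Dvd.dvd.mul_left h8 _)
      rcases three_dvd_mul h9 with h | h
      · exact hw3 h
      · exact hg h
  rcases hpp.dvd_or_dvd h4 with h5 | h5
  · exact key y rfl h3 h5
  · exact key (-y) (by ring) (fun h => h3 ((dvd_neg).1 h)) (by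
      have : a * x * f - -y * g = a * x * f + y * g := by ring
      rwa [this])

/-- multiplication by `p = 2 f² + 7 g²`, from the first to the second form -/
theorem mul_B {n p f g : ℤ} (hp : p = 2 * f ^ 2 + 7 * g ^ 2)
    (hf : (3 : ℤ) ∣ f) (hg : ¬ (3 : ℤ) ∣ g) (h : Rp 1 14 n) : Rp 2 7 (n * p) := by
  obtain ⟨x, y, h1, h2, h3⟩ := h
  refine ⟨f * x - 7 * g * y, g * x + 2 * f * y, ?_, ?_, ?_⟩
  · have : 9 * (n * p) = (1 * x ^ 2 + 14 * y ^ 2) * (2 * f ^ 2 + 7 * g ^ 2) := by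
      rw [← h1, hp]; ring
    rw [this]
    ring
  · intro h4
    have h5 : (3 : ℤ) ∣ g * y := by
      have h6 : (3 : ℤ) ∣ f * x := Dvd.dvd.mul_right hf _
      have h7 : 7 * g * y = 7 * (g * y) := by ring
      rw [h7] at h4
      omega
    rcases three_dvd_mul h5 with h | h
    · exact hg h
    · exact h3 h
  · intro h4
    have h5 : (3 : ℤ) ∣ g * x := by
      have h6 : (3 : ℤ) ∣ f * y := Dvd.dvd.mul_right hf _
      have : g * x = (g * x + 2 * f * y) - 2 * (f * y) := by ring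
      rw [this]
      exact dvd_sub h4 (Dvd.dvd.mul_left h6 _)
    rcases three_dvd_mul h5 with h | h
    · exact hg h
    · exact h2 h

/-- multiplication by `p = 2 f² + 7 g²`, from the second to the first form -/
theorem mul_B' {n p f g : ℤ} (hp : p = 2 * f ^ 2 + 7 * g ^ 2)
    (hf : (3 : ℤ) ∣ f) (hg : ¬ (3 : ℤ) ∣ g) (h : Rp 2 7 n) : Rp 1 14 (n * p) := by
  obtain ⟨x, y, h1, h2, h3⟩ := h
  refine ⟨2 * x * f - 7 * y * g, x * g + f * y, ?_, ?_, ?_⟩
  · have : 9 * (n * p) = (2 * x ^ 2 + 7 * y ^ 2) * (2 * f ^ 2 + 7 * g ^ 2) := by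
      rw [← h1, hp]; ring
    rw [this]
    ring
  · intro h4
    have h5 : (3 : ℤ) ∣ y * g := by
      have h6 : (3 : ℤ) ∣ x * f := Dvd.dvd.mul_left hf _
      have h7 : 2 * x * f = 2 * (x * f) := by ring
      have h8 : 7 * y * g = 7 * (y * g) := by ring
      rw [h7, h8] at h4
      omega
    rcases three_dvd_mul h5 with h | h
    · exact h3 h
    · exact hg h
  · intro h4
    have h5 : (3 : ℤ) ∣ x * g := by
      have h6 : (3 : ℤ) ∣ f * y := Dvd.dvd.mul_right hf _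
      omega
    rcases three_dvd_mul h5 with h | h
    · exact h2 h
    · exact hg h

/-- division by `p = 2 f² + 7 g²`, from the first to the second form -/
theorem div_B {n p f g : ℤ} (h2p : ¬ p ∣ 2) (hpp : Prime p) (hp : p = 2 * f ^ 2 + 7 * g ^ 2)
    (hf : (3 : ℤ) ∣ f) (hg : ¬ (3 : ℤ) ∣ g) (h : Rp 1 14 (n * p)) : Rp 2 7 n := by
  obtain ⟨x, y, h1, h2, h3⟩ := h
  have h4 : p ∣ (2 * f * y - g * x) * (2 * f * y + g * x) := by
    refine ⟨2 * y ^ 2 - 9 * n * g ^ 2, ?_⟩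
    have e1 : x ^ 2 = 9 * (n * p) - 14 * y ^ 2 := by linarith
    have e2 : 2 * f ^ 2 = p - 7 * g ^ 2 := by linarith
    calc (2 * f * y - g * x) * (2 * f * y + g * x) = 2 * (2 * f ^ 2) * y ^ 2 - g ^ 2 * x ^ 2 := by ring
      _ = p * (2 * y ^ 2 - 9 * n * g ^ 2) := by rw [e1, e2]; ring
  have key : ∀ w : ℤ, w ^ 2 = y ^ 2 → ¬ (3 : ℤ) ∣ w → p ∣ 2 * f * w - g * x → Rp 2 7 n := by
    intro w hw hw3 hd
    obtain ⟨v, hv⟩ := hd
    have h5 : 2 * (f * x + 7 * g * w) ^ 2 + 7 * (2 * f * w - g * x) ^ 2 = 9 * n * p * p := by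
      have : 2 * (f * x + 7 * g * w) ^ 2 + 7 * (2 * f * w - g * x) ^ 2 =
        (1 * x ^ 2 + 14 * w ^ 2) * (2 * f ^ 2 + 7 * g ^ 2) := by ring
      rw [this, hw, ← h1, ← hp]
      ring
    have h6 : p ∣ f * x + 7 * g * w := by
      have h7 : p ∣ 2 * (f * x + 7 * g * w) ^ 2 := by
        refine ⟨9 * n * p - 7 * p * v ^ 2, ?_⟩
        rw [hv] at h5
        linarith
      rcases hpp.dvd_or_dvd h7 with h8 | h8
      · exact absurd h8 h2p
      · exact hpp.dvd_of_dvd_pow h8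
    obtain ⟨u, hu⟩ := h6
    refine ⟨u, v, ?_, ?_, ?_⟩
    · rw [hu, hv] at h5
      have h8 : (p * p) * (9 * n - (2 * u ^ 2 + 7 * v ^ 2)) = 0 := by linarith
      rcases mul_eq_zero.1 h8 with h | h
      · exact absurd h (mul_ne_zero hpp.ne_zero hpp.ne_zero)
      · linarith
    · intro h8
      have h9 : (3 : ℤ) ∣ g * w := by
        have h10 : (3 : ℤ) ∣ p * u := Dvd.dvd.mul_left h8 _
        have h11 : (3 : ℤ) ∣ f * x := Dvd.dvd.mul_right hf _
        have h12 : 7 * g * w = 7 * (g * w) := by ring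
        rw [h12] at hu
        omega
      rcases three_dvd_mul h9 with h | h
      · exact hg h
      · exact hw3 h
    · intro h8
      have h9 : (3 : ℤ) ∣ g * x := by
        have h10 : (3 : ℤ) ∣ p * v := Dvd.dvd.mul_left h8 _
        have h11 : (3 : ℤ) ∣ f * w := Dvd.dvd.mul_right hf _
        have h12 : 2 * f * w = 2 * (f * w) := by ring
        rw [h12] at hv
        omega
      rcases three_dvd_mul h9 with h | h
      · exact hg h
      · exact h2 h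
  rcases hpp.dvd_or_dvd h4 with h5 | h5
  · exact key y rfl h3 h5
  · refine key (-y) (by ring) (fun h => h3 ((dvd_neg).1 h)) ?_
    have : 2 * f * -y - g * x = -(2 * f * y + g * x) := by ring
    rw [this]
    exact (dvd_neg).2 h5

/-- division by `p = 2 f² + 7 g²`, from the second to the first form -/
theorem div_B' {n p f g : ℤ} (hpp : Prime p) (hp : p = 2 * f ^ 2 + 7 * g ^ 2)
    (hf : (3 : ℤ) ∣ f) (hg : ¬ (3 : ℤ) ∣ g) (h : Rp 2 7 (n * p)) : Rp 1 14 n := by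
  obtain ⟨x, y, h1, h2, h3⟩ := h
  -- `X = 2 x f + 7 y g`, `Y = x g - f y`
  have h4 : p ∣ (x * g - f * y) * (x * g + f * y) * 2 := by
    refine ⟨9 * n * g ^ 2 - y ^ 2, ?_⟩
    have e1 : 2 * x ^ 2 = 9 * (n * p) - 7 * y ^ 2 := by linarith
    have e2 : 2 * f ^ 2 = p - 7 * g ^ 2 := by linarith
    calc (x * g - f * y) * (x * g + f * y) * 2 = (2 * x ^ 2) * g ^ 2 - (2 * f ^ 2) * y ^ 2 := by ring
      _ = p * (9 * n * g ^ 2 - y ^ 2) := by rw [e1, e2]; ring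
  have key : ∀ w : ℤ, w ^ 2 = y ^ 2 → ¬ (3 : ℤ) ∣ w → p ∣ x * g - f * w → Rp 1 14 n := by
    intro w hw hw3 hd
    obtain ⟨v, hv⟩ := hd
    have h5 : (2 * x * f + 7 * w * g) ^ 2 + 14 * (x * g - f * w) ^ 2 = 9 * n * p * p := by
      have : (2 * x * f + 7 * w * g) ^ 2 + 14 * (x * g - f * w) ^ 2 =
        (2 * x ^ 2 + 7 * w ^ 2) * (2 * f ^ 2 + 7 * g ^ 2) := by ring
      rw [this, hw, ← h1, ← hp]
      ring
    have h6 : p ∣ 2 * x * f + 7 * w * g := by
      have h7 : p ∣ (2 * x * f + 7 * w * g) ^ 2 := by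
        refine ⟨9 * n * p - 14 * p * v ^ 2, ?_⟩
        rw [hv] at h5
        linarith
      exact hpp.dvd_of_dvd_pow h7
    obtain ⟨u, hu⟩ := h6
    refine ⟨u, v, ?_, ?_, ?_⟩
    · rw [hu, hv] at h5
      have h8 : (p * p) * (9 * n - (1 * u ^ 2 + 14 * v ^ 2)) = 0 := by linarith
      rcases mul_eq_zero.1 h8 with h | h
      · exact absurd h (mul_ne_zero hpp.ne_zero hpp.ne_zero)
      · linarith
    · intro h8
      have h9 : (3 : ℤ) ∣ w * g := by
        have h10 : (3 : ℤ) ∣ p * u := Dvd.dvd.mul_left h8 _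
        have h11 : (3 : ℤ) ∣ x * f := Dvd.dvd.mul_left hf _
        have h12 : 7 * w * g = 7 * (w * g) := by ring
        have h13 : 2 * x * f = 2 * (x * f) := by ring
        rw [h12, h13] at hu
        omega
      rcases three_dvd_mul h9 with h | h
      · exact hw3 h
      · exact hg h
    · intro h8
      have h9 : (3 : ℤ) ∣ x * g := by
        have h10 : (3 : ℤ) ∣ p * v := Dvd.dvd.mul_left h8 _
        have h11 : (3 : ℤ) ∣ f * w := Dvd.dvd.mul_right hf _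
        omega
      rcases three_dvd_mul h9 with h | h
      · exact h2 h
      · exact hg h
  have h2' : ¬ p ∣ 2 := by
    intro h
    have h5 : p ≤ 2 := Int.le_of_dvd (by norm_num) h
    have h6 : 1 ≤ g ^ 2 := by
      have : g ≠ 0 := by
        rintro rfl
        exact hg (dvd_zero _)
      have := sq_pos_of_ne_zero this
      omega
    nlinarith [sq_nonneg f]
  rcases hpp.dvd_or_dvd h4 with h5 | h5
  · rcases hpp.dvd_or_dvd h5 with h5 | h5
    · exact key y rfl h3 h5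
    · exact key (-y) (by ring) (fun h => h3 ((dvd_neg).1 h)) (by
        have : x * g - f * -y = x * g + f * y := by ring
        rwa [this])
  · exact absurd h5 h2'

theorem mod3_A {p x y : ℤ} (hp : p % 3 = 1) (h : p = x ^ 2 + 14 * y ^ 2) :
    (3 : ℤ) ∣ y ∧ ¬ (3 : ℤ) ∣ x := by
  have hx3 : x % 3 = 0 ∨ x % 3 = 1 ∨ x % 3 = 2 := by omega
  have hy3 : y % 3 = 0 ∨ y % 3 = 1 ∨ y % 3 = 2 := by omega
  have h1 : (x ^ 2 + 14 * y ^ 2) % 3 = 1 := by rw [← h]; exact hp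
  rcases hx3 with h2 | h2 | h2 <;> rcases hy3 with h3 | h3 | h3 <;>
    simp [Int.add_emod, Int.mul_emod, pow_succ, h2, h3] at h1 <;>
    exact ⟨by omega, by omega⟩

theorem mod3_B {p f g : ℤ} (hp : p % 3 = 1) (h : p = 2 * f ^ 2 + 7 * g ^ 2) :
    (3 : ℤ) ∣ f ∧ ¬ (3 : ℤ) ∣ g := by
  have hx3 : f % 3 = 0 ∨ f % 3 = 1 ∨ f % 3 = 2 := by omega
  have hy3 : g % 3 = 0 ∨ g % 3 = 1 ∨ g % 3 = 2 := by omega
  have h1 : (2 * f ^ 2 + 7 * g ^ 2) % 3 = 1 := by rw [← h]; exact hp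
  rcases hx3 with h2 | h2 | h2 <;> rcases hy3 with h3 | h3 | h3 <;>
    simp [Int.add_emod, Int.mul_emod, pow_succ, h2, h3] at h1 <;>
    exact ⟨by omega, by omega⟩

open Classical in
theorem main_ind (P : Finset ℕ) (hP : ∀ p ∈ P, Fam p) :
    (Rp 1 14 (pr P) ↔ Odd (P.filter fun p => X2 p).card) ∧
    (Rp 2 7 (pr P) ↔ ¬ Odd (P.filter fun p => X2 p).card) := by
  induction P using Finset.induction_on with
  | empty =>
    have h1 : ¬ Rp 1 14 ((pr ∅ : ℕ) : ℤ) := by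
      rintro ⟨x, y, h1, h2, h3⟩
      simp only [pr, Finset.prod_empty] at h1
      have hy : y = 0 := by
        by_contra hy
        have := sq_pos_of_ne_zero hy
        have := sq_nonneg x
        push_cast at h1
        omega
      exact h3 (by rw [hy]; exact dvd_zero _)
    have h2 : Rp 2 7 ((pr ∅ : ℕ) : ℤ) := ⟨1, 1, by simp [pr], by norm_num, by norm_num⟩
    simp [h1, h2]
  | insert p Q hpQ ih =>
    obtain ⟨ih1, ih2⟩ := ih fun q hq => hP q (Finset.mem_insert_of_mem hq)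
    have hF := hP p (Finset.mem_insert_self _ _)
    have hpp : Prime (p : ℤ) := Nat.prime_iff_prime_int.1 hF.1
    have hp3 : (p : ℤ) % 3 = 1 := by
      have := hF.2.1
      omega
    have hpr : ((pr (insert p Q) : ℕ) : ℤ) = (pr Q : ℤ) * p := by
      unfold pr
      rw [Finset.prod_insert hpQ]
      push_cast
      ring
    have h2p : ¬ (p : ℤ) ∣ 2 := by
      intro h
      have h5 : (p : ℤ) ≤ 2 := Int.le_of_dvd (by norm_num) h
      have h6 := hF.2.1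
      have h7 := hF.1.one_lt
      omega
    rw [hpr, Finset.filter_insert]
    by_cases hX : X2 p
    · obtain ⟨f, g, hfg⟩ := id hX
      have hfg' : (p : ℤ) = 2 * (f : ℤ) ^ 2 + 7 * (g : ℤ) ^ 2 := by exact_mod_cast hfg
      obtain ⟨h3f, h3g⟩ := mod3_B hp3 hfg'
      rw [if_pos hX, Finset.card_insert_of_notMem (by simp [hpQ]), Nat.odd_add_one]
      constructor
      · rw [← ih2]
        exact ⟨div_B h2p hpp hfg' h3f h3g, mul_B' hfg' h3f h3g⟩
      · rw [not_not, ← ih1]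
        exact ⟨div_B' hpp hfg' h3f h3g, mul_B hfg' h3f h3g⟩
    · obtain ⟨x, y, hxy⟩ := (dich hF).resolve_right hX
      obtain ⟨h3y, h3x⟩ := mod3_A hp3 hxy
      rw [if_neg hX]
      constructor
      · rw [← ih1]
        exact ⟨div_A (by norm_num) (fun h => hpp.not_isUnit (isUnit_of_dvd_one h)) hpp hxy h3y h3x,
          mul_A (by norm_num) hxy h3y h3x⟩
      · rw [← ih2]
        exact ⟨div_A (by norm_num) h2p hpp hxy h3y h3x, mul_A (by norm_num) hxy h3y h3x⟩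

theorem pr_mod8 (P : Finset ℕ) (hP : ∀ p ∈ P, Fam p) : pr P % 8 = 1 := by
  induction P using Finset.induction_on with
  | empty => simp [pr]
  | insert p Q hpQ ih =>
    have h1 := ih fun q hq => hP q (Finset.mem_insert_of_mem hq)
    have hF := (hP p (Finset.mem_insert_self _ _)).2.1
    have h2 : p % 8 = 1 := by omega
    have h3 : pr (insert p Q) = p * pr Q := by
      unfold pr
      rw [Finset.prod_insert hpQ]
    rw [h3, Nat.mul_mod, h1, h2]

theorem t_SOLA : S_SOLA := by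
  intro P hP
  rw [← (main_ind P hP).1]
  constructor
  · rintro ⟨⟨x, y⟩, h1, h2, h3, h4⟩
    simp only at h1 h2 h3 h4
    exact ⟨x, y, by linarith, h3, fun h => h3 (by omega)⟩
  · rintro ⟨x, y, h1, h2, h3⟩
    have h8 : ((pr P : ℕ) : ℤ) % 8 = 1 := by exact_mod_cast pr_mod8 P hP
    have hx : x % 2 = 1 := by
      by_contra h
      have h5 : ∃ u, x = 2 * u := ⟨x / 2, by omega⟩
      obtain ⟨u, rfl⟩ := h5
      have : (1 : ℤ) * (2 * u) ^ 2 + 14 * y ^ 2 = 2 * (2 * u ^ 2 + 7 * y ^ 2) := by ring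
      rw [this] at h1
      omega
    obtain ⟨u, hu, hu4⟩ : ∃ u : ℤ, u ^ 2 = x ^ 2 ∧ u % 4 = 1 ∧ ¬ (3 : ℤ) ∣ u := by
      by_cases h : x % 4 = 1
      · exact ⟨x, rfl, h, h2⟩
      · exact ⟨-x, by ring, by omega, fun h => h2 ((dvd_neg).1 h)⟩
    obtain ⟨v, hv, hv3⟩ : ∃ v : ℤ, v ^ 2 = y ^ 2 ∧ (3 : ℤ) ∣ v - u := by
      by_cases h : (3 : ℤ) ∣ y - u
      · exact ⟨y, rfl, h⟩
      · have h5 := hu4.2
        have h6 : u % 3 = 1 ∨ u % 3 = 2 := by omega
        have h7 : y % 3 = 1 ∨ y % 3 = 2 := by omega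
        refine ⟨-y, by ring, ?_⟩
        rcases h6 with h6 | h6 <;> rcases h7 with h7 | h7 <;> omega
    refine ⟨(u, v), ?_, hu4.1, hu4.2, hv3⟩
    simp only
    rw [hu, hv]
    linarith

end Pool.Agent.Y563.Z
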